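import Pool.Agent.Helper87.P3.Spec
import Pool.Agent.Helper87.P3.Basic

/-!
ONE of the P3 project: states with exactly one winner.
-/

set_option autoImplicit false

namespace Pool.Agent.Helper49.P3

open Finset Pool.Agent.Helper87.P3

variable {M ι : Type} [DecidableEq M] [Fintype M] {I : Inst M ι} {u : ι → ℕ}

omit [Fintype M] in
/-- a state of maximal size with one winner is complete -/
theorem step_x {x a b : ι} {V U W : Finset M} (h3 : Tri x a b)
    (hN : NoTwo I u) (hd : Dis3 V U W) (hx : dem I u x V) (ha : win I u a U) (hb : dem I u b W)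
    {g : M} (hgV : g ∉ V) (hgU : g ∉ U) (hgW : g ∉ W)
    (hV : ¬ cheap I u (insert g V)) (hW : ¬ cheap I u (insert g W)) (hxU : win I u x U) :
    False := by
  obtain ⟨ZV, hZV, -, w, hw⟩ := exists_mn hV
  obtain ⟨ZW, hZW, -, z, hz⟩ := exists_mn hW
  have hd1 : Dis3 (insert g V) U W := by
    refine ⟨?_, hd.2.1, ?_⟩
    · rw [disjoint_insert_left]; exact ⟨hgU, hd.1⟩
    · rw [disjoint_insert_left]; exact ⟨hgW, hd.2.2⟩
  have hd1' : Dis3 ZV U W := hd1.mono hZV (Subset.refl _) (Subset.refl _)
  have hd2 : Dis3 V U (insert g W) := by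
    refine ⟨hd.1, ?_, ?_⟩
    · rw [disjoint_insert_right]; exact ⟨hgU, hd.2.1⟩
    · rw [disjoint_insert_right]; exact ⟨hgV, hd.2.2⟩
  have hd2' : Dis3 V U ZW := hd2.mono (Subset.refl _) (Subset.refl _) hZW
  -- the winner of `ZV` is `b`
  have hbZ : win I u b ZV := by
    rcases h3.2.2.2 w with rfl | rfl | rfl
    · exact absurd (hN w a b ZV U W h3 hd1' hw ha (Or.inl hb)) id
    · exact absurd (hN w x b ZV U W h3.swap hd1' hw hxU (Or.inl hb)) id
    · exact hw
  -- only `b` demands `W`
  have hzW : dem I u z W := dem_of_win_insert hb.1 hZW hz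
  rcases h3.2.2.2 z with rfl | rfl | rfl
  · exact hN b a z ZV U W h3.rot.swap hd1' hbZ ha (Or.inl hzW)
  · exact hN b x z ZV U W h3.rot.rot hd1' hbZ hxU (Or.inl hzW)
  · exact hN a z x U ZW V h3.rot hd2'.rot ha hz (Or.inl hx)

/-- a complete state with exactly one winner exists -/
theorem complete {x a b : ι} {V U W : Finset M} (h3 : Tri x a b) (hT : Tmax I u)
    (hN : NoTwo I u) (hd : Dis3 V U W) (hx : dem I u x V) (ha : win I u a U)
    (hb : dem I u b W) :
    ∃ (x' a' b' : ι) (V' U' W' : Finset M), Tri x' a' b' ∧ Dis3 V' U' W' ∧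
      V' ∪ U' ∪ W' = univ ∧ dem I u x' V' ∧ win I u a' U' ∧ dem I u b' W' := by
  classical
  obtain ⟨n, hn⟩ : ∃ n, n = (univ \ (V ∪ U ∪ W)).card := ⟨_, rfl⟩
  induction n using Nat.strong_induction_on generalizing x a b V U W with
  | _ n ih =>
    by_cases hun : V ∪ U ∪ W = univ
    · exact ⟨x, a, b, V, U, W, h3, hd, hun, hx, ha, hb⟩
    · obtain ⟨g, hg⟩ : ∃ g, g ∉ V ∪ U ∪ W := by
        by_contra hcon
        push Not at hcon
        exact hun (eq_univ_iff_forall.2 hcon)
      have hg' := hg
      simp only [mem_union, not_or] at hg'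
      obtain ⟨⟨hgV, hgU⟩, hgW⟩ := hg'
      have hlt : ∀ S : Finset M, V ∪ U ∪ W ⊆ S → g ∈ S → (univ \ S).card < n := by
        intro S hS hgS
        rw [hn]
        apply card_lt_card
        refine ⟨sdiff_subset_sdiff (Subset.refl _) hS, ?_⟩
        intro hcon
        have := hcon (mem_sdiff.2 ⟨mem_univ g, hg⟩)
        exact (mem_sdiff.1 this).2 hgS
      by_cases hV : cheap I u (insert g V)
      · refine ih _ (hlt (insert g V ∪ U ∪ W) ?_ ?_) (V := insert g V) h3 ?_ ?_ ha hb rfl
        · exact union_subset_union (union_subset_union (subset_insert _ _) (Subset.refl _))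
            (Subset.refl _)
        · simp
        · refine ⟨?_, hd.2.1, ?_⟩
          · rw [disjoint_insert_left]; exact ⟨hgU, hd.1⟩
          · rw [disjoint_insert_left]; exact ⟨hgW, hd.2.2⟩
        · exact dem_of_subset hV (subset_insert _ _) hx
      by_cases hW : cheap I u (insert g W)
      · refine ih _ (hlt (V ∪ U ∪ insert g W) ?_ ?_) (W := insert g W) h3 ?_ hx ha ?_ rfl
        · exact union_subset_union (Subset.refl _) (subset_insert _ _)
        · simp
        · refine ⟨hd.1, ?_, ?_⟩
          · rw [disjoint_insert_right]; exact ⟨hgU, hd.2.1⟩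
          · rw [disjoint_insert_right]; exact ⟨hgV, hd.2.2⟩
        · exact dem_of_subset hW (subset_insert _ _) hb
      exfalso
      rcases F1 hT h3.swap hd.swap ha (Or.inl hx) (Or.inl hb) with h | h
      · exact step_x h3 hN hd hx ha hb hgV hgU hgW hV hW h
      · exact step_x h3.rot.swap hN hd.rot.swap hb ha hx hgW hgU hgV hW hV h

/-- no complete state with exactly one winner has a violator -/
theorem core (hPL : S_PL) (hML : S_ML) {x a b : ι} {V U W P P' : Finset M} (h3 : Tri x a b)
    (hT : Tmax I u) (hN : NoTwo I u) (hG : ¬ Good I) (hd : Dis3 V U W)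
    (hun : V ∪ U ∪ W = univ) (hx : dem I u x V) (ha : win I u a U) (hb : dem I u b W)
    (hPd : Disjoint P P') (hPu : P ∪ P' = V ∪ U) (hP : u x + 1 ≤ I.v x P)
    (hP' : u x + 1 ≤ I.v x P') : False := by
  classical
  set S := V ∪ U with hS
  have hSW : Disjoint S W := disjoint_union_left.2 ⟨hd.2.2, hd.2.1⟩
  refine hPL M S P P' (cheap I u) (fun A => u x + 1 ≤ I.v x A)
    (fun V' => V' ⊆ S ∧ dem I u x V' ∧ win I u a (S \ V'))
    (fun A B hAB hB => cheap_subset hAB hB) (fun A B hAB hA => hA.trans (I.mono x A B hAB))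
    (fun A hA hc => by have := hc x; omega) ?_ hPd hPu hP hP' ?_ ?_ V
    ⟨subset_union_left, hx, ?_⟩
  · intro A B hAB hABS
    exact split hPd hAB (hPu.trans hABS.symm) hP hP'
  · intro V₁ hV₁
    exact ⟨hV₁.1, hV₁.2.1.1, hV₁.2.2.1⟩
  · -- closure
    rintro V₁ ⟨hV₁S, hxV₁, haU₁⟩ g hg U' hU' hU'c hU'min
    set U₁ := S \ V₁ with hU₁
    have hd1 : Disjoint V₁ U₁ := disjoint_sdiff
    have hun1 : V₁ ∪ U₁ = S := union_sdiff_of_subset hV₁S
    have hU₁S : U₁ ⊆ S := sdiff_subset
    have hDis1 : Dis3 V₁ U₁ W :=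
      ⟨hd1, hSW.mono_left hU₁S, hSW.mono_left hV₁S⟩
    have hunW : V₁ ∪ U₁ ∪ W = univ := by rw [hun1]; exact hun
    have hPu1 : P ∪ P' = V₁ ∪ U₁ := by rw [hun1]; exact hPu
    -- `x` wins `U₁`
    have hxU₁ : win I u x U₁ := by
      apply win_of_emin haU₁.1
      rcases split hPd hd1 hPu1 hP hP' with h | h
      · have := hxV₁.2; omega
      · omega
    -- `a` does not demand `W`
    have haW : ¬ dem I u a W := fun h =>
      hML M ι I u x a b V₁ U₁ W P P' h3 hT hN hG hDis1 hunW hxV₁ haU₁ hb h hPd hPu1 hP hP'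
    set V0 := U₁.erase g with hV0
    have hV0U : V0 ⊆ U₁ := erase_subset _ _
    have hxV0 : dem I u x V0 := dem_erase hxU₁ hg
    have haV0 : dem I u a V0 := dem_erase haU₁ hg
    have hgS : g ∈ S := hU₁S hg
    have hgV₁ : g ∉ V₁ := (mem_sdiff.1 hg).2
    have hgW : g ∉ W := fun h => disjoint_left.1 hSW hgS h
    -- `x` demands `W`
    have hxW : dem I u x W := by
      have hWg : ¬ cheap I u (insert g W) := by
        intro hc
        apply hG
        refine good_of_dem (I := I) (u := u) (A := V₁) (B := V0) (C := insert g W) h3 ?_ ?_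
          hxV₁ haV0 (dem_of_subset hc (subset_insert _ _) hb)
        · refine ⟨hd1.mono_right hV0U, ?_, ?_⟩
          · rw [disjoint_insert_right]
            exact ⟨by simp [hV0], hDis1.2.1.mono_left hV0U⟩
          · rw [disjoint_insert_right]
            exact ⟨hgV₁, hDis1.2.2⟩
        · rw [eq_univ_iff_forall]
          intro y
          have hy := mem_univ y
          rw [← hunW] at hy
          simp only [mem_union, mem_insert, hV0, mem_erase] at hy ⊢
          tauto
      obtain ⟨UW, hUW, -, z, hz⟩ := exists_mn hWg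
      have hdis : Dis3 UW V₁ V0 := by
        refine ⟨?_, hd1.mono_right hV0U, ?_⟩
        · refine Disjoint.mono_left hUW ?_
          rw [disjoint_insert_left]
          exact ⟨hgV₁, hDis1.2.2.symm⟩
        · refine Disjoint.mono_left hUW ?_
          rw [disjoint_insert_left]
          exact ⟨by simp [hV0], hDis1.2.1.symm.mono_right hV0U⟩
      rcases h3.2.2.2 z with rfl | rfl | rfl
      · exact dem_of_win_insert hb.1 hUW hz
      · exact absurd (dem_of_win_insert hb.1 hUW hz) haW
      · rcases F1 hT h3.rot.rot hdis hz (Or.inl hxV₁) (Or.inl haV0) with h | h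
        · exact dem_of_win_insert hb.1 hUW h
        · exact absurd (dem_of_win_insert hb.1 hUW h) haW
    have hU'S : U' ⊆ S := by
      refine hU'.trans ?_
      intro y hy
      rcases mem_insert.1 hy with rfl | h
      · exact hgS
      · exact hV₁S h
    have hU'e : emin I u U' := hU'min
    set V' := S \ U' with hV'
    have hV0V' : V0 ⊆ V' := by
      intro y hy
      rw [hV', mem_sdiff]
      refine ⟨hU₁S (hV0U hy), fun hyU' => ?_⟩
      rcases mem_insert.1 (hU' hyU') with rfl | h
      · simp [hV0] at hy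
      · exact (mem_sdiff.1 (hV0U hy)).2 h
    have hdU'V' : Disjoint U' V' := disjoint_sdiff
    have hunV' : U' ∪ V' = S := union_sdiff_of_subset hU'S
    have hV'S : V' ⊆ S := sdiff_subset
    have hDis2 : Dis3 U' V' W := ⟨hdU'V', hSW.mono_left hV'S, hSW.mono_left hU'S⟩
    have hDis0 : Dis3 U' V0 W := hDis2.mono (Subset.refl _) hV0V' (Subset.refl _)
    have hSS : S \ V' = U' := by
      rw [hV', Finset.sdiff_sdiff_eq_self hU'S]
    -- at least two winners of `U'`
    have htwo : (win I u a U' ∧ (win I u x U' ∨ win I u b U')) ∨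
        (win I u x U' ∧ win I u b U') := by
      obtain ⟨w, hw⟩ : ∃ w, win I u w U' := by
        by_contra hcon
        push Not at hcon
        exact hU'c fun k => le_of_not_win hU'e (hcon k)
      rcases h3.2.2.2 w with rfl | rfl | rfl
      · rcases F1 hT h3 hDis0 hw (Or.inl haV0) (Or.inl hb) with h | h <;> tauto
      · rcases F1 hT h3.swap hDis0 hw (Or.inl hxV0) (Or.inl hb) with h | h <;> tauto
      · rcases F1 hT h3.rot.swap hDis0 hw (Or.inl haV0) (Or.inl hxW) with h | h <;> tauto
    by_cases hc : cheap I u V'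
    · -- (ii)
      have hxU' : win I u x U' := by
        apply win_of_emin hU'e
        rcases split hPd hdU'V' (hPu.trans hunV'.symm) hP hP' with h | h
        · omega
        · have := hc x; omega
      have hxV' : dem I u x V' := dem_of_subset hc hV0V' hxV0
      have haV' : dem I u a V' := dem_of_subset hc hV0V' haV0
      have haU' : win I u a U' := by
        by_contra hna
        have hle := le_of_not_win hU'e hna
        have hunx : W ∪ U' ∪ V' = univ := by
          rw [union_assoc, hunV', union_comm]; exact hun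
        have hdx : Dis3 W U' V' := hDis2.rot.rot
        rcases violator_one hG h3.rot.rot hdx hunx hb hxU' haV' with
          ⟨Q, Q', hQd, hQu, hQ, hQ'⟩ | ⟨Q, Q', hQd, hQu, hQ, hQ'⟩
        · exact hML M ι I u b x a W U' V' Q Q' h3.rot.rot hT hN hG hdx hunx hb hxU' haV' hxV'
            hQd hQu hQ hQ'
        · rcases split hQd hdx.2.1 hQu hQ hQ' with h | h
          · omega
          · have := haV'.2; omega
      refine ⟨hV'S, hxV', ?_⟩
      rw [hSS]; exact haU'
    · -- (i)
      exfalso
      obtain ⟨Z, hZ, -, z, hz⟩ := exists_mn hc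
      have hDisZ : Dis3 U' Z W := hDis2.mono (Subset.refl _) hZ (Subset.refl _)
      by_cases haU' : win I u a U'
      · rcases h3.2.2.2 z with rfl | rfl | rfl
        · exact hN a z b U' Z W h3.swap hDisZ haU' hz (Or.inl hb)
        · rcases htwo with ⟨-, h | h⟩ | ⟨h, -⟩
          · exact hN x z b U' Z W h3 hDisZ h hz (Or.inl hb)
          · exact hN b z x U' Z W h3.rot.swap hDisZ h hz (Or.inl hxW)
          · exact hN x z b U' Z W h3 hDisZ h hz (Or.inl hb)
        · exact hN a z x U' Z W h3.rot hDisZ haU' hz (Or.inl hxW)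
      · obtain ⟨hxU', hbU'⟩ : win I u x U' ∧ win I u b U' := by tauto
        set W' := W ∪ (V' \ V0) with hW'
        have hdW' : Dis3 U' V0 W' := by
          refine ⟨hDis0.1, ?_, ?_⟩
          · rw [hW', disjoint_union_right]
            exact ⟨hDis0.2.1, disjoint_sdiff⟩
          · rw [hW', disjoint_union_right]
            exact ⟨hDis0.2.2, hdU'V'.mono_right sdiff_subset⟩
        have hW'c : cheap I u W' := by
          by_contra hcc
          obtain ⟨ZW, hZW, -, y, hy⟩ := exists_mn hcc
          have hdZ : Dis3 U' V0 ZW := hdW'.mono (Subset.refl _) (Subset.refl _) hZW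
          rcases h3.2.2.2 y with rfl | rfl | rfl
          · exact hN b y a U' ZW V0 h3.rot.rot hdZ.swap2 hbU' hy (Or.inl haV0)
          · exact hN b y x U' ZW V0 h3.rot.swap hdZ.swap2 hbU' hy (Or.inl hxV0)
          · exact hN x y a U' ZW V0 h3.swap2 hdZ.swap2 hxU' hy (Or.inl haV0)
        have hbW' : dem I u b W' := dem_of_subset hW'c subset_union_left hb
        have hunx : W' ∪ U' ∪ V0 = univ := by
          rw [eq_univ_iff_forall]
          intro y
          have hy := mem_univ y
          rw [← hun, ← hunV'] at hy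
          simp only [mem_union, hW', mem_sdiff] at hy ⊢
          tauto
        have hdx : Dis3 W' U' V0 := hdW'.rot.rot
        have hle := le_of_not_win hU'e haU'
        rcases violator_one hG h3.rot.rot hdx hunx hbW' hxU' haV0 with
          ⟨Q, Q', hQd, hQu, hQ, hQ'⟩ | ⟨Q, Q', hQd, hQu, hQ, hQ'⟩
        · exact hML M ι I u b x a W' U' V0 Q Q' h3.rot.rot hT hN hG hdx hunx hbW' hxU' haV0 hxV0
            hQd hQu hQ hQ'
        · rcases split hQd hdx.2.1 hQu hQ hQ' with h | h
          · omega
          · have := haV0.2; omega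
  · have : S \ V = U := by
      rw [hS, union_sdiff_cancel_left hd.1]
    rw [this]
    exact ha

theorem one (hPL : S_PL) (hML : S_ML) : S_ONE := by
  intro M ι _ _ I u x a b V U W h3 hT hN hd hx ha hb
  by_contra hG
  obtain ⟨x', a', b', V', U', W', h3', hd', hun', hx', ha', hb'⟩ :=
    complete h3 hT hN hd hx ha hb
  rcases violator_one hG h3' hd' hun' hx' ha' hb' with
    ⟨P, P', hPd, hPu, hP, hP'⟩ | ⟨P, P', hPd, hPu, hP, hP'⟩
  · exact core hPL hML h3' hT hN hG hd' hun' hx' ha' hb' hPd hPu hP hP'
  · refine core hPL hML h3'.rot.swap hT hN hG hd'.rot.swap ?_ hb' ha' hx' hPd ?_ hP hP'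
    · rw [← hun', union_comm W' U', union_assoc, union_comm W' V', ← union_assoc,
        union_comm U' V']
    · rw [hPu, union_comm]

end Pool.Agent.Helper49.P3
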